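import Pool.Agent.H830R3.TA.Closed
import Pool.Agent.Helper849.TA.Stmts3

set_option autoImplicit false

/-! # Task `CLOSEDK` of the project TILTAPPROX (MP_db3ab1_ag): equations over a subfield -/

namespace Pool.Agent.H291R3.TILT

open MvPolynomial Pool.Agent.H830R3.TA

attribute [local instance] MvPolynomial.weightedGradedAlgebra

variable {k F : Type} [Field k] [Field F] [Algebra k F]

lemma redK [IsAlgClosed F] {M n s e : ℕ} (he : 0 < e)
    {g : Fin s → MvPolynomial (Fin M ⊕ Fin n) k} {d : Fin s → ℕ}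
    (hg : ∀ i, IsWeightedHomogeneous (wt M n e) (g i) (d i))
    (h0 : ∀ x : Fin M → F, (∀ i, aeval (Sum.elim x (fun _ => 0) : Fin M ⊕ Fin n → F) (g i) = 0) →
      x = 0) (j : Fin M) :
    ∃ (L : ℕ) (v : MvPolynomial (Fin M ⊕ Fin n) k),
      X (Sum.inl j) ^ L - v ∈ Ideal.span (Set.range g) ∧
        ∀ c ∈ v.support, ∑ i, c (Sum.inl i) < L := by
  classical
  set I := Ideal.span (Set.range g) with hI
  let U : Ideal (MvPolynomial (Fin M ⊕ Fin n) k) :=
    Ideal.span (X '' (Set.range (Sum.inr : Fin n → Fin M ⊕ Fin n)))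
  have h1 : (X (Sum.inl j) : MvPolynomial (Fin M ⊕ Fin n) k) ∈
      vanishingIdeal k (zeroLocus F (I ⊔ U)) := by
    intro z hz
    have hx : ∀ k, z (Sum.inr k) = 0 := by
      intro k
      have := hz (X (Sum.inr k)) (Ideal.mem_sup_right
        (Ideal.subset_span ⟨Sum.inr k, ⟨k, rfl⟩, rfl⟩))
      simpa using this
    have hze : z = Sum.elim (z ∘ Sum.inl) (fun _ => 0) := by
      ext (i | k)
      · rfl
      · simp [hx]
    have h2 := h0 (z ∘ Sum.inl) (fun i => by
      rw [← hze]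
      exact hz (g i) (Ideal.mem_sup_left (Ideal.subset_span ⟨i, rfl⟩)))
    have h3 := congrFun h2 j
    simpa using h3
  rw [vanishingIdeal_zeroLocus_eq_radical] at h1
  obtain ⟨L, hL⟩ := h1
  obtain ⟨a, ha, v, hv, hav⟩ := Submodule.mem_sup.1 hL
  refine ⟨L, weightedHomogeneousComponent (wt M n e) L v, ?_, ?_⟩
  · have hX : (X (Sum.inl j) : MvPolynomial (Fin M ⊕ Fin n) k) ^ L
        = weightedHomogeneousComponent (wt M n e) L (X (Sum.inl j) ^ L) := by
      rw [weightedHomogeneousComponent_eq_self]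
      have := (isWeightedHomogeneous_X k (wt M n e) (Sum.inl j)).pow L
      simpa using this
    rw [hX, ← hav, map_add, add_sub_cancel_right]
    exact weightedHomogeneousComponent_mem_of_mem _ _ (homog hg) ha L
  · intro c hc
    rw [support_weightedHomogeneousComponent, Finset.mem_filter] at hc
    obtain ⟨_, ⟨k, rfl⟩, hk⟩ := mem_ideal_span_X_image.1 hv c hc.1
    have h4 := weight_wt M n e c
    rw [hc.2] at h4
    have h5 : c (Sum.inr k) ≤ ∑ k : Fin n, c (Sum.inr k) :=
      Finset.single_le_sum (f := fun k => c (Sum.inr k)) (fun _ _ => Nat.zero_le _)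
        (Finset.mem_univ k)
    have h6 : 0 < e * ∑ k : Fin n, c (Sum.inr k) := Nat.mul_pos he (by omega)
    omega

lemma pointK [IsAlgClosed F] {M n : ℕ} {A : Type} [CommRing A] [Algebra (MvPolynomial (Fin n) k) A]
    [Module.Finite (MvPolynomial (Fin n) k) A]
    (π : MvPolynomial (Fin M ⊕ Fin n) k →+* A)
    (hal : ∀ f, algebraMap (MvPolynomial (Fin n) k) A f = π (rename Sum.inr f))
    (u : Fin n → F) (hk : ∀ f : MvPolynomial (Fin n) k, π (rename Sum.inr f) = 0 → aeval u f = 0) :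
    ∃ z : Fin M ⊕ Fin n → F, (∀ k, z (Sum.inr k) = u k) ∧ ∀ f, π f = 0 → aeval z f = 0 := by
  classical
  let φ : MvPolynomial (Fin n) k →+* F := (aeval u : MvPolynomial (Fin n) k →ₐ[k] F).toRingHom
  let P : Ideal (MvPolynomial (Fin n) k) := RingHom.ker φ
  have hP : P.IsPrime := RingHom.ker_isPrime φ
  have hint : Algebra.IsIntegral (MvPolynomial (Fin n) k) A := inferInstance
  obtain ⟨Q, -, hQ, hQP⟩ := Ideal.exists_ideal_over_prime_of_isIntegral P (⊥ : Ideal A) (by
    intro f hf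
    rw [Ideal.mem_comap, Ideal.mem_bot, hal] at hf
    exact hk f hf)
  have hlies : Q.LiesOver P := ⟨hQP.symm⟩
  let ψ : (MvPolynomial (Fin n) k ⧸ P) →+* F := Ideal.Quotient.lift P φ (fun f hf => hf)
  have hψ : Function.Injective ψ := by
    rw [injective_iff_map_eq_zero]
    intro x hx
    obtain ⟨f, rfl⟩ := Ideal.Quotient.mk_surjective x
    have hx' : φ f = 0 := hx
    exact Ideal.Quotient.eq_zero_iff_mem.2 hx'
  let : Algebra (MvPolynomial (Fin n) k ⧸ P) F := ψ.toAlgebra
  have hdom1 : IsDomain (MvPolynomial (Fin n) k ⧸ P) := inferInstance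
  have hdom2 : IsDomain (A ⧸ Q) := inferInstance
  have hF1 : FaithfulSMul (MvPolynomial (Fin n) k ⧸ P) F := by
    rw [faithfulSMul_iff_algebraMap_injective]
    exact hψ
  have hF2 : FaithfulSMul (MvPolynomial (Fin n) k ⧸ P) (A ⧸ Q) := inferInstance
  have hint2 : Algebra.IsIntegral (MvPolynomial (Fin n) k ⧸ P) (A ⧸ Q) := inferInstance
  have halg : Algebra.IsAlgebraic (MvPolynomial (Fin n) k ⧸ P) (A ⧸ Q) := inferInstance
  let Λ : (A ⧸ Q) →ₐ[MvPolynomial (Fin n) k ⧸ P] F := IsAlgClosed.lift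
  let Φ : MvPolynomial (Fin M ⊕ Fin n) k →+* F := (Λ.toRingHom.comp (Ideal.Quotient.mk Q)).comp π
  -- the restriction to the coefficients and the variables `u`
  have hΦ : ∀ f : MvPolynomial (Fin n) k, Φ (rename Sum.inr f) = aeval u f := by
    intro f
    change Λ (Ideal.Quotient.mk Q (π (rename Sum.inr f))) = aeval u f
    rw [← hal, ← Ideal.Quotient.algebraMap_mk_of_liesOver Q P f, AlgHom.commutes]
    rfl
  have hC : ∀ c : k, Φ (C c) = algebraMap k F c := by
    intro c
    have h := hΦ (C c)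
    rw [rename_C] at h
    rw [h]
    simp
  have hΦz : ∀ f, Φ f = aeval (fun i => Φ (X i)) f := by
    intro f
    have h : Φ = (aeval (fun i => Φ (X i)) : MvPolynomial (Fin M ⊕ Fin n) k →ₐ[k] F).toRingHom := by
      apply MvPolynomial.ringHom_ext
      · intro c
        rw [hC]
        simp
      · intro i
        simp
    exact congrArg (fun ρ : MvPolynomial (Fin M ⊕ Fin n) k →+* F => ρ f) h
  refine ⟨fun i => Φ (X i), fun i => ?_, fun f hf => ?_⟩
  · have h := hΦ (X i)
    rw [rename_X] at h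
    change Φ (X (Sum.inr i)) = u i
    rw [h]
    simp
  · rw [← hΦz]
    change Λ (Ideal.Quotient.mk Q (π f)) = 0
    rw [hf, map_zero, map_zero]

/-- the image of a weighted cone over a subfield is a closed cone over the subfield -/
theorem closedK (k F : Type) [Field k] [Field F] [IsAlgClosed F] [Algebra k F] (M n s e : ℕ)
    (he : 0 < e) (g : Fin s → MvPolynomial (Fin M ⊕ Fin n) k) (d : Fin s → ℕ)
    (hg : ∀ i, IsWeightedHomogeneous (Sum.elim (fun _ => 1) (fun _ => e) : Fin M ⊕ Fin n → ℕ)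
      (g i) (d i))
    (h0 : ∀ x : Fin M → F, (∀ i, aeval (Sum.elim x (fun _ => 0) : Fin M ⊕ Fin n → F) (g i) = 0) →
      x = 0) :
    ∃ S : Set (MvPolynomial (Fin n) k), (∀ f ∈ S, ∃ m : ℕ, f.IsHomogeneous m) ∧
      ∀ u : Fin n → F, (∀ f ∈ S, aeval u f = 0) ↔
        ∃ x : Fin M → F, ∀ i, aeval (Sum.elim x u : Fin M ⊕ Fin n → F) (g i) = 0 := by
  classical
  set I := Ideal.span (Set.range g) with hI
  refine ⟨{f | (∃ m : ℕ, f.IsHomogeneous m) ∧ rename Sum.inr f ∈ I}, fun f hf => hf.1,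
    fun u => ⟨fun hu => ?_, ?_⟩⟩
  · choose L v hLv hs using fun j => redK he hg h0 j
    let ρ : MvPolynomial (Fin n) k →+* (MvPolynomial (Fin M ⊕ Fin n) k ⧸ I) :=
      (Ideal.Quotient.mk I).comp (rename (Sum.inr : Fin n → Fin M ⊕ Fin n) (R := k)).toRingHom
    have hfin := @finA k _ M n (MvPolynomial (Fin M ⊕ Fin n) k ⧸ I) _ ρ.toAlgebra
      (Ideal.Quotient.mk I) Ideal.Quotient.mk_surjective (fun _ => rfl) L v
      (fun j => by
        rw [← map_pow]
        exact Ideal.Quotient.eq.2 (hLv j)) hs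
    obtain ⟨z, hzu, hz⟩ := @pointK k F _ _ _ _ M n (MvPolynomial (Fin M ⊕ Fin n) k ⧸ I) _
      ρ.toAlgebra hfin (Ideal.Quotient.mk I) (fun _ => rfl) u (fun f hf => by
        have hf' : rename Sum.inr f ∈ I := Ideal.Quotient.eq_zero_iff_mem.1 hf
        rw [← sum_homogeneousComponent f, map_sum]
        refine Finset.sum_eq_zero
          (fun k _ => hu _ ⟨⟨k, homogeneousComponent_isHomogeneous k f⟩, ?_⟩)
        rw [rename_comp he]
        exact weightedHomogeneousComponent_mem_of_mem _ _ (homog hg) hf' _)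
    have hze : Sum.elim (z ∘ Sum.inl) u = z := by
      ext (i | k)
      · rfl
      · simp [hzu]
    refine ⟨z ∘ Sum.inl, fun i => ?_⟩
    rw [hze]
    exact hz _ (Ideal.Quotient.eq_zero_iff_mem.2 (Ideal.subset_span ⟨i, rfl⟩))
  · rintro ⟨x, hx⟩ f ⟨_, hf⟩
    have h1 : I ≤ RingHom.ker (aeval (Sum.elim x u : Fin M ⊕ Fin n → F) :
        MvPolynomial (Fin M ⊕ Fin n) k →ₐ[k] F).toRingHom :=
      Ideal.span_le.2 (by rintro _ ⟨i, rfl⟩; exact hx i)
    have h2 : aeval (Sum.elim x u : Fin M ⊕ Fin n → F) (rename Sum.inr f) = 0 := h1 hf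
    rwa [aeval_rename, Sum.elim_comp_inr] at h2

theorem taskClosedK : Pool.Agent.Helper849.TA.TaskClosedK :=
  fun k F _ _ _ _ M n s e he g d hg h0 => closedK k F M n s e he g d hg h0

end Pool.Agent.H291R3.TILT
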