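import Pool.Agent.Helper849.TA.Stmts2
import Pool.Agent.H552R3.Tsen.Zero

set_option autoImplicit false

/-! # Task `P2RED` of the project TILTAPPROX (MP_db3ab1_ag) -/

namespace Pool.Agent.H291R3.TILT

open MvPolynomial Pool.Agent.Helper849.TA

/-- substitution of weighted forms -/
lemma wh_aeval {σ τ F : Type} [CommSemiring F] (W : σ → ℕ) (W' : τ → ℕ)
    (t : σ → MvPolynomial τ F) (ht : ∀ i, IsWeightedHomogeneous W' (t i) (W i))
    (p : MvPolynomial σ F) (n : ℕ) (hp : IsWeightedHomogeneous W p n) :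
    IsWeightedHomogeneous W' (aeval t p) n := by
  classical
  rw [p.as_sum, map_sum]
  apply IsWeightedHomogeneous.sum
  intro d hd
  rw [aeval_monomial]
  have h1 : Finsupp.weight W d = n := hp (mem_support_iff.mp hd)
  have h2 : IsWeightedHomogeneous W' (d.prod fun i k => t i ^ k)
      (∑ i ∈ d.support, d i • W i) := by
    apply IsWeightedHomogeneous.prod
    intro i _
    exact (ht i).pow (d i)
  have h3 : IsWeightedHomogeneous W' (algebraMap F (MvPolynomial τ F) (coeff d p)) 0 :=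
    isWeightedHomogeneous_C W' _
  have h4 := h3.mul h2
  have h5 : 0 + ∑ i ∈ d.support, d i • W i = n := by
    rw [zero_add, ← h1, Finsupp.weight_apply]
    rfl
  rwa [h5] at h4

/-- adding finitely many forms one at a time -/
lemma many (hstep : TaskP2Step) (F : Type) [Field F] [IsAlgClosed F] (N m : ℕ)
    (v : Fin (m + 1) → ℕ) (k : ℕ) :
    ∀ (s : ℕ) (_ : s + k ≤ N + m)
    (r : Fin s → MvPolynomial (Fin (N + 1) ⊕ Fin (m + 1)) F) (a b : Fin s → ℕ)
    (_ : ∀ j, IsWeightedHomogeneous (Sum.elim (fun _ => 1) v) (r j) (a j))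
    (_ : ∀ j, IsWeightedHomogeneous
      (Sum.elim (fun _ => 0) (fun _ => 1) : Fin (N + 1) ⊕ Fin (m + 1) → ℕ) (r j) (b j))
    (z₀ : Fin (N + 1) → F) (y₀ : Fin (m + 1) → F) (_ : z₀ ≠ 0) (_ : y₀ ≠ 0)
    (_ : ∀ j, eval (Sum.elim z₀ y₀) (r j) = 0)
    (g : Fin k → MvPolynomial (Fin (N + 1) ⊕ Fin (m + 1)) F) (a' b' : Fin k → ℕ)
    (_ : ∀ j, 0 < b' j) (_ : ∀ j i, b' j * v i < a' j)
    (_ : ∀ j, IsWeightedHomogeneous (Sum.elim (fun _ => 1) v) (g j) (a' j))
    (_ : ∀ j, IsWeightedHomogeneous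
      (Sum.elim (fun _ => 0) (fun _ => 1) : Fin (N + 1) ⊕ Fin (m + 1) → ℕ) (g j) (b' j)),
    ∃ (z : Fin (N + 1) → F) (y : Fin (m + 1) → F), z ≠ 0 ∧ y ≠ 0 ∧
      (∀ j, eval (Sum.elim z y) (r j) = 0) ∧ ∀ j, eval (Sum.elim z y) (g j) = 0 := by
  induction k with
  | zero =>
    intro s _ r a b _ _ z₀ y₀ hz hy h0 g a' b' _ _ _ _
    exact ⟨z₀, y₀, hz, hy, h0, fun j => j.elim0⟩
  | succ k ih =>
    intro s hs r a b hra hrb z₀ y₀ hz hy h0 g a' b' hb' hab hga hgb
    obtain ⟨z1, y1, hz1, hy1, h1, h2⟩ := hstep F N m v s (by omega) r a b hra hrb z₀ y₀ hz hy h0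
      (g 0) (a' 0) (b' 0) (hb' 0) (hab 0) (hga 0) (hgb 0)
    obtain ⟨z, y, hz2, hy2, h3, h4⟩ := ih (s + 1) (by omega)
      (Fin.snoc (α := fun _ => MvPolynomial (Fin (N + 1) ⊕ Fin (m + 1)) F) r (g 0))
      (Fin.snoc (α := fun _ => ℕ) a (a' 0)) (Fin.snoc (α := fun _ => ℕ) b (b' 0))
      (by
        intro j
        refine Fin.lastCases ?_ (fun j => ?_) j
        · simpa using hga 0
        · simpa using hra j)
      (by
        intro j
        refine Fin.lastCases ?_ (fun j => ?_) j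
        · simpa using hgb 0
        · simpa using hrb j)
      z1 y1 hz1 hy1
      (by
        intro j
        refine Fin.lastCases ?_ (fun j => ?_) j
        · simpa using h2
        · simpa using h1 j)
      (fun j => g j.succ) (fun j => a' j.succ) (fun j => b' j.succ) (fun j => hb' _)
      (fun j => hab _) (fun j => hga _) (fun j => hgb _)
    refine ⟨z, y, hz2, hy2, fun j => ?_, fun j => ?_⟩
    · have := h3 (Fin.castSucc j)
      simpa using this
    · refine Fin.cases ?_ (fun j => ?_) j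
      · have := h3 (Fin.last s)
        simpa using this
      · exact h4 j

theorem taskP2_of_step : TaskP2Step → TaskP2 := by
  intro hstep F _ _ σ _ w hw m v ι₁ ι₂ _ _ hc1 hc2 g d hd hg r a b hb hab hra hrb
  classical
  have hσ : 0 < Fintype.card σ := by omega
  obtain ⟨N, hN⟩ : ∃ N, Fintype.card σ = N + 1 := ⟨Fintype.card σ - 1, by omega⟩
  let e : σ ≃ Fin (N + 1) := Fintype.equivFinOfCardEq hN
  let e1 : Fin (Fintype.card ι₁) ≃ ι₁ := (Fintype.equivFin ι₁).symm
  let e2 : Fin (Fintype.card ι₂) ≃ ι₂ := (Fintype.equivFin ι₂).symm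
  -- the substitutions
  let θ : MvPolynomial σ F →ₐ[F] MvPolynomial (Fin (N + 1)) F := aeval (fun i => X (e i) ^ w i)
  let Ψ : MvPolynomial σ F →ₐ[F] MvPolynomial (Fin (N + 1) ⊕ Fin (m + 1)) F :=
    aeval (fun i => X (Sum.inl (e i)) ^ w i)
  let Θ : MvPolynomial (σ ⊕ Fin (m + 1)) F →ₐ[F] MvPolynomial (Fin (N + 1) ⊕ Fin (m + 1)) F :=
    aeval (Sum.elim (fun i => X (Sum.inl (e i)) ^ w i) (fun k => X (Sum.inr k)))
  have evθ : ∀ (z : Fin (N + 1) → F) (q : MvPolynomial σ F),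
      eval z (θ q) = eval (fun i => z (e i) ^ w i) q := by
    intro z q
    have h : (aeval z : MvPolynomial (Fin (N + 1)) F →ₐ[F] F).comp θ =
        aeval (fun i => z (e i) ^ w i) := by
      apply MvPolynomial.algHom_ext
      intro i
      simp [θ]
    have h2 := congrArg (fun f => f q) (congrArg DFunLike.coe h)
    simpa [MvPolynomial.aeval_eq_eval] using h2
  have evΨ : ∀ (z : Fin (N + 1) → F) (y : Fin (m + 1) → F) (q : MvPolynomial σ F),
      eval (Sum.elim z y) (Ψ q) = eval (fun i => z (e i) ^ w i) q := by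
    intro z y q
    have h : (aeval (Sum.elim z y) :
        MvPolynomial (Fin (N + 1) ⊕ Fin (m + 1)) F →ₐ[F] F).comp Ψ =
        aeval (fun i => z (e i) ^ w i) := by
      apply MvPolynomial.algHom_ext
      intro i
      simp [Ψ]
    have h2 := congrArg (fun f => f q) (congrArg DFunLike.coe h)
    simpa [MvPolynomial.aeval_eq_eval] using h2
  have evΘ : ∀ (z : Fin (N + 1) → F) (y : Fin (m + 1) → F) (q : MvPolynomial (σ ⊕ Fin (m + 1)) F),
      eval (Sum.elim z y) (Θ q) = eval (Sum.elim (fun i => z (e i) ^ w i) y) q := by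
    intro z y q
    have h : (aeval (Sum.elim z y) :
        MvPolynomial (Fin (N + 1) ⊕ Fin (m + 1)) F →ₐ[F] F).comp Θ =
        aeval (Sum.elim (fun i => z (e i) ^ w i) y) := by
      apply MvPolynomial.algHom_ext
      intro i
      rcases i with i | i
      · simp [Θ]
      · simp [Θ]
    have h2 := congrArg (fun f => f q) (congrArg DFunLike.coe h)
    simpa [MvPolynomial.aeval_eq_eval] using h2
  -- the forms in `z` alone
  obtain ⟨z₀, hz₀, hz₀g⟩ := Pool.Agent.H552R3.Tsen.exists_common_zero (k := F)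
    (fun i => θ (g i)) (fun i => by
      rw [evθ]
      have h0 : (fun i => (0 : Fin (N + 1) → F) (e i) ^ w i) = (0 : σ → F) := by
        funext i
        simp [(hw i).ne']
      rw [h0]
      have h1 : eval (0 : σ → F) (g i) = coeff 0 (g i) := by
        rw [MvPolynomial.eval_zero, constantCoeff_eq]
      rw [h1]
      by_contra h2
      have h3 := hg i h2
      rw [map_zero] at h3
      have := hd i
      omega) (by rw [Fintype.card_fin]; omega)
  let y₀ : Fin (m + 1) → F := fun _ => 1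
  have hy₀ : y₀ ≠ 0 := by
    intro h
    have := congrFun h 0
    exact one_ne_zero this
  -- weights
  have hwX : ∀ i : σ, IsWeightedHomogeneous
      (Sum.elim (fun _ => 1) v : Fin (N + 1) ⊕ Fin (m + 1) → ℕ)
      ((X (Sum.inl (e i)) : MvPolynomial (Fin (N + 1) ⊕ Fin (m + 1)) F) ^ w i) (w i) := by
    intro i
    have h := (isWeightedHomogeneous_X (R := F)
      (Sum.elim (fun _ => 1) v : Fin (N + 1) ⊕ Fin (m + 1) → ℕ) (Sum.inl (e i))).pow (w i)
    simpa using h
  have hwX0 : ∀ i : σ, IsWeightedHomogeneous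
      (Sum.elim (fun _ => 0) (fun _ => 1) : Fin (N + 1) ⊕ Fin (m + 1) → ℕ)
      ((X (Sum.inl (e i)) : MvPolynomial (Fin (N + 1) ⊕ Fin (m + 1)) F) ^ w i) 0 := by
    intro i
    have h := (isWeightedHomogeneous_X (R := F)
      (Sum.elim (fun _ => 0) (fun _ => 1) : Fin (N + 1) ⊕ Fin (m + 1) → ℕ)
      (Sum.inl (e i))).pow (w i)
    simpa using h
  have hΨ1 : ∀ i, IsWeightedHomogeneous
      (Sum.elim (fun _ => 1) v : Fin (N + 1) ⊕ Fin (m + 1) → ℕ) (Ψ (g i)) (d i) := by
    intro i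
    exact wh_aeval w _ _ hwX (g i) (d i) (hg i)
  have hΨ2 : ∀ i, IsWeightedHomogeneous
      (Sum.elim (fun _ => 0) (fun _ => 1) : Fin (N + 1) ⊕ Fin (m + 1) → ℕ) (Ψ (g i)) 0 := by
    intro i
    refine wh_aeval (fun _ => 0) _ _ hwX0 (g i) 0 ?_
    intro c _
    simp [Finsupp.weight_apply]
  have hΘ1 : ∀ j, IsWeightedHomogeneous
      (Sum.elim (fun _ => 1) v : Fin (N + 1) ⊕ Fin (m + 1) → ℕ) (Θ (r j)) (a j) := by
    intro j
    refine wh_aeval (Sum.elim w v) _ _ ?_ (r j) (a j) (hra j)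
    rintro (i | k)
    · exact hwX i
    · exact isWeightedHomogeneous_X (R := F)
        (Sum.elim (fun _ => 1) v : Fin (N + 1) ⊕ Fin (m + 1) → ℕ) (Sum.inr k)
  have hΘ2 : ∀ j, IsWeightedHomogeneous
      (Sum.elim (fun _ => 0) (fun _ => 1) : Fin (N + 1) ⊕ Fin (m + 1) → ℕ) (Θ (r j)) (b j) := by
    intro j
    refine wh_aeval (Sum.elim (fun _ => 0) (fun _ => 1)) _ _ ?_ (r j) (b j) (hrb j)
    rintro (i | k)
    · exact hwX0 i
    · exact isWeightedHomogeneous_X (R := F)
        (Sum.elim (fun _ => 0) (fun _ => 1) : Fin (N + 1) ⊕ Fin (m + 1) → ℕ) (Sum.inr k)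
  obtain ⟨z, y, hz, hy, h1, h2⟩ := many hstep F N m v (Fintype.card ι₂) (Fintype.card ι₁)
    (by omega) (fun i => Ψ (g (e1 i))) (fun i => d (e1 i)) (fun _ => 0)
    (fun i => hΨ1 _) (fun i => hΨ2 _) z₀ y₀ hz₀ hy₀
    (fun i => by rw [evΨ, ← evθ]; exact hz₀g _)
    (fun j => Θ (r (e2 j))) (fun j => a (e2 j)) (fun j => b (e2 j)) (fun j => hb _)
    (fun j => hab _) (fun j => hΘ1 _) (fun j => hΘ2 _)
  refine ⟨fun i => z (e i) ^ w i, y, ?_, hy, ?_, ?_⟩
  · intro h
    apply hz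
    funext k
    have h3 := congrFun h (e.symm k)
    simp only [Equiv.apply_symm_apply, Pi.zero_apply] at h3
    exact pow_eq_zero_iff (hw _).ne' |>.mp h3
  · intro i
    have h3 := h1 (e1.symm i)
    simp only [Equiv.apply_symm_apply] at h3
    rwa [evΨ] at h3
  · intro j
    have h3 := h2 (e2.symm j)
    simp only [Equiv.apply_symm_apply] at h3
    rwa [evΘ] at h3

end Pool.Agent.H291R3.TILT
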